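import Mathlib

set_option autoImplicit false

namespace Pool.Agent.H.MP_95e4ab_al

universe u v

/-- a pp formula, given by a pointed finite presentation -/
structure PP (R : Type u) (n : ℕ) where
  g : ℕ
  m : ℕ
  c : Fin n → Fin g → R
  rel : Fin m → Fin g → R

variable {R : Type u} [Ring R] {n : ℕ}

def PP.Sat (φ : PP R n) {M : Type u} [AddCommGroup M] [Module R M] (x : Fin n → M) : Prop :=
  ∃ Y : (Fin φ.g → R) →ₗ[R] M, (∀ i, Y (φ.c i) = x i) ∧ ∀ l, Y (φ.rel l) = 0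

section basic

variable {φ : PP R n} {M N : Type u} [AddCommGroup M] [Module R M] [AddCommGroup N] [Module R N]

lemma PP.Sat.map {x : Fin n → M} (h : φ.Sat x) (f : M →ₗ[R] N) : φ.Sat fun j => f (x j) := by
  obtain ⟨Y, h1, h2⟩ := h
  exact ⟨f ∘ₗ Y, fun i => by simp [h1], fun l => by simp [h2]⟩

lemma PP.Sat.add {x y : Fin n → M} (h : φ.Sat x) (h' : φ.Sat y) : φ.Sat (x + y) := by
  obtain ⟨Y, h1, h2⟩ := h
  obtain ⟨Y', h1', h2'⟩ := h'
  exact ⟨Y + Y', fun i => by simp [h1, h1'], fun l => by simp [h2, h2']⟩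

lemma PP.Sat.neg {x : Fin n → M} (h : φ.Sat x) : φ.Sat (-x) := by
  obtain ⟨Y, h1, h2⟩ := h
  exact ⟨-Y, fun i => by simp [h1], fun l => by simp [h2]⟩

lemma PP.Sat.zero : φ.Sat (0 : Fin n → M) := ⟨0, fun i => by simp, fun l => by simp⟩

end basic

lemma mkPP (G : Type u) [AddCommGroup G] [Module R G] [Module.Projective R G] (c : Fin n → G)
    {κ : Type v} [Finite κ] (rel : κ → G) :
    ∃ φ : PP R n, ∀ (M : Type u) [AddCommGroup M] [Module R M] (x : Fin n → M),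
      φ.Sat x ↔ ∃ L : G →ₗ[R] M, (∀ i, L (c i) = x i) ∧ ∀ l, L (rel l) = 0 := by
  classical
  obtain ⟨s, hs⟩ := Module.projective_def.1 (inferInstance : Module.Projective R G)
  obtain ⟨m, ⟨e⟩⟩ := Finite.exists_equiv_fin κ
  let W : Finset G := Finset.univ.biUnion (fun i => (s (c i)).support) ∪
    Finset.univ.biUnion (fun l => (s (rel (e.symm l))).support)
  let ε := W.equivFin
  let ρ : G →ₗ[R] (Fin W.card → R) :=
    LinearMap.pi fun v => Finsupp.lapply ((ε.symm v : W) : G) ∘ₗ s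
  let ι : (Fin W.card → R) →ₗ[R] G := Fintype.linearCombination R fun v => ((ε.symm v : W) : G)
  have key : ∀ w : G, (s w).support ⊆ W → ι (ρ w) = w := by
    intro w hw
    have h1 : ι (ρ w) = ∑ v : W, s w v • (v : G) := by
      simp only [ι, ρ, Fintype.linearCombination_apply, LinearMap.pi_apply, LinearMap.comp_apply,
        Finsupp.lapply_apply]
      exact Equiv.sum_comp ε.symm (fun v : W => s w v • (v : G))
    rw [h1, Finset.sum_coe_sort W (fun v => s w v • v)]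
    conv_rhs => rw [← hs w, Finsupp.linearCombination_apply, Finsupp.sum]
    exact (Finset.sum_subset hw fun v _ hv => by
      rw [Finsupp.notMem_support_iff.1 hv, zero_smul]).symm
  have kc : ∀ i, ι (ρ (c i)) = c i := fun i => key _ fun v hv =>
    Finset.mem_union_left _ (Finset.mem_biUnion.2 ⟨i, Finset.mem_univ _, hv⟩)
  have kr : ∀ l, ι (ρ (rel (e.symm l))) = rel (e.symm l) := fun l => key _ fun v hv =>
    Finset.mem_union_right _ (Finset.mem_biUnion.2 ⟨l, Finset.mem_univ _, hv⟩)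
  refine ⟨⟨W.card, m, fun i => ρ (c i), fun l => ρ (rel (e.symm l))⟩, fun M _ _ x => ⟨?_, ?_⟩⟩
  · rintro ⟨Y, h1, h2⟩
    exact ⟨Y ∘ₗ ρ, h1, fun l => by simpa using h2 (e l)⟩
  · rintro ⟨L, h1, h2⟩
    exact ⟨L ∘ₗ ι, fun i => by simp [kc, h1], fun l => by simp [kr, h2]⟩

lemma factor {F0 C N : Type u} [AddCommGroup F0] [Module R F0]
    [AddCommGroup C] [Module R C] [AddCommGroup N] [Module R N]
    {q : F0 →ₗ[R] C} (hq : Function.Surjective q) (x : F0 →ₗ[R] N)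
    (hk : ∀ z, q z = 0 → x z = 0) : ∃ v : C →ₗ[R] N, ∀ z, v (q z) = x z := by
  refine ⟨(LinearMap.ker q).liftQ x hk ∘ₗ (q.quotKerEquivOfSurjective hq).symm.toLinearMap,
    fun z => ?_⟩
  have e : (q.quotKerEquivOfSurjective hq).symm (q z) = Submodule.Quotient.mk z := by
    rw [LinearEquiv.symm_apply_eq]; rfl
  simp only [LinearMap.comp_apply, LinearEquiv.coe_coe, e, Submodule.liftQ_apply]

lemma fpPP (C : Type u) [AddCommGroup C] [Module R C] [Module.FinitePresentation R C]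
    (c : Fin n → C) :
    ∃ φ : PP R n, ∀ (M : Type u) [AddCommGroup M] [Module R M] (x : Fin n → M),
      φ.Sat x ↔ ∃ L : C →ₗ[R] M, ∀ i, L (c i) = x i := by
  obtain ⟨g, m, q, h, hq, hex⟩ := Module.FinitePresentation.exists_fin' R C
  choose t ht using fun i => hq (c i)
  refine ⟨⟨g, m, t, fun l => h (Pi.single l 1)⟩, fun M _ _ x => ⟨?_, ?_⟩⟩
  · rintro ⟨Y, h1, h2⟩
    have h0 : Y ∘ₗ h = 0 := by
      ext l
      simpa using h2 l
    obtain ⟨v, hv⟩ := factor hq Y (fun z hz => by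
      obtain ⟨w, rfl⟩ := (hex z).1 hz
      exact LinearMap.congr_fun h0 w)
    exact ⟨v, fun i => by rw [← ht, hv]; exact h1 i⟩
  · rintro ⟨L, h1⟩
    exact ⟨L ∘ₗ q, fun i => by simp [ht, h1], fun l => by simp [hex.apply_apply_eq_zero]⟩

/-- pp pairs -/
def Pair (R : Type u) : Type u := Σ n : ℕ, PP R n × PP R n

/-- the pair is closed on `M` -/
def Pair.Cl (π : Pair R) (M : Type u) [AddCommGroup M] [Module R M] : Prop :=
  ∀ x : Fin π.1 → M, π.2.1.Sat x → π.2.2.Sat x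

lemma Pair.Cl.retract {π : Pair R} {M N : Type u} [AddCommGroup M] [Module R M] [AddCommGroup N]
    [Module R N] (h : π.Cl M) (s : N →ₗ[R] M) (r : M →ₗ[R] N) (hrs : ∀ x, r (s x) = x) :
    π.Cl N := fun x hx => by
  simpa [hrs] using (h _ (hx.map s)).map r

lemma injPair (X Y : Type u) [AddCommGroup X] [Module R X] [Module.FinitePresentation R X]
    [AddCommGroup Y] [Module R Y] [Module.FinitePresentation R Y] (f : X →ₗ[R] Y) :
    ∃ π : Pair R, ∀ (M : Type u) [AddCommGroup M] [Module R M],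
      π.Cl M ↔ ∀ g : X →ₗ[R] M, ∃ h : Y →ₗ[R] M, h ∘ₗ f = g := by
  obtain ⟨k, q, hq⟩ := Module.Finite.exists_fin' R X
  obtain ⟨φ, hφ⟩ := fpPP (R := R) X fun i => q (Pi.single i 1)
  obtain ⟨ψ, hψ⟩ := fpPP (R := R) Y fun i => f (q (Pi.single i 1))
  refine ⟨⟨k, φ, ψ⟩, fun M _ _ => ⟨fun h g => ?_, fun h x hx => ?_⟩⟩
  · obtain ⟨L, hL⟩ := (hψ M _).1 (h _ ((hφ M _).2 ⟨g, fun i => rfl⟩))
    refine ⟨L, ?_⟩
    have : (L ∘ₗ f) ∘ₗ q = g ∘ₗ q := by
      ext i
      simpa using hL i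
    refine LinearMap.ext fun z => ?_
    obtain ⟨z, rfl⟩ := hq z
    exact LinearMap.congr_fun this z
  · obtain ⟨L, hL⟩ := (hφ M x).1 hx
    obtain ⟨L', rfl⟩ := h L
    exact (hψ M x).2 ⟨L', hL⟩

lemma redprod (ι : Type u) (F : Filter ι) (M : ι → ModuleCat.{u} R) :
    ∃ (P : ModuleCat.{u} R) (mk : (∀ i, M i) →ₗ[R] P), Function.Surjective mk ∧
      ∀ (n : ℕ) (φ : PP R n) (x : Fin n → ∀ i, M i),
        φ.Sat (fun j => mk (x j)) ↔ ∀ᶠ i in F, φ.Sat fun j => x j i := by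
  classical
  let K : Submodule R (∀ i, M i) :=
    { carrier := {x | ∀ᶠ i in F, x i = 0}
      add_mem' := fun {a b} ha hb => (ha.and hb).mono fun i hi => by simp [hi.1, hi.2]
      zero_mem' := Filter.Eventually.of_forall fun i => rfl
      smul_mem' := fun r a ha => ha.mono fun i hi => by simp [hi] }
  have hK : ∀ x, K.mkQ x = 0 ↔ ∀ᶠ i in F, x i = 0 := fun x => Submodule.Quotient.mk_eq_zero K
  refine ⟨ModuleCat.of R ((∀ i, M i) ⧸ K), K.mkQ, K.mkQ_surjective, fun n φ x => ⟨?_, ?_⟩⟩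
  · rintro ⟨Y, h1, h2⟩
    obtain ⟨Y', hY⟩ := Module.projective_lifting_property K.mkQ Y K.mkQ_surjective
    have hY' : ∀ z, K.mkQ (Y' z) = Y z := fun z => LinearMap.congr_fun hY z
    have e1 : ∀ᶠ i in F, ∀ j, (Y' (φ.c j) - x j) i = 0 :=
      Filter.eventually_all.2 fun j => (hK _).1 (by rw [map_sub, hY', h1, sub_self])
    have e2 : ∀ᶠ i in F, ∀ l, (Y' (φ.rel l)) i = 0 :=
      Filter.eventually_all.2 fun l => (hK _).1 (by rw [hY', h2])
    refine (e1.and e2).mono fun i hi => ⟨LinearMap.proj i ∘ₗ Y', fun j => ?_, hi.2⟩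
    exact sub_eq_zero.1 (hi.1 j)
  · intro h
    have : ∀ i, ∃ Y : (Fin φ.g → R) →ₗ[R] M i, (φ.Sat fun j => x j i) →
        (∀ j, Y (φ.c j) = x j i) ∧ ∀ l, Y (φ.rel l) = 0 := by
      intro i
      by_cases hi : φ.Sat fun j => x j i
      · obtain ⟨Y, hY⟩ := hi
        exact ⟨Y, fun _ => hY⟩
      · exact ⟨0, fun h => absurd h hi⟩
    choose Y hY using this
    refine ⟨K.mkQ ∘ₗ LinearMap.pi Y, fun j => ?_, fun l => ?_⟩
    · rw [LinearMap.comp_apply, ← sub_eq_zero, ← map_sub, hK]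
      exact h.mono fun i hi => by simp [(hY i hi).1]
    · rw [LinearMap.comp_apply, hK]
      exact h.mono fun i hi => by simp [(hY i hi).2]

lemma redprod_cl {ι : Type u} {F : Filter ι} {M : ι → ModuleCat.{u} R} {P : ModuleCat.{u} R}
    {mk : (∀ i, M i) →ₗ[R] P} (hs : Function.Surjective mk)
    (h : ∀ (n : ℕ) (φ : PP R n) (x : Fin n → ∀ i, M i),
        φ.Sat (fun j => mk (x j)) ↔ ∀ᶠ i in F, φ.Sat fun j => x j i)
    (π : Pair R) (hπ : ∀ᶠ i in F, π.Cl (M i)) : π.Cl P := by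
  intro x hx
  choose y hy using fun j => hs (x j)
  obtain rfl : x = fun j => mk (y j) := funext fun j => (hy j).symm
  exact (h _ _ _).2 ((hπ.and ((h _ _ _).1 hx)).mono fun i hi => hi.1 _ hi.2)

end Pool.Agent.H.MP_95e4ab_al
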