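import Pool.Agent.H.MP_95e4ab_al.A

set_option autoImplicit false

namespace Pool.Agent.H.MP_95e4ab_al

universe u v w

lemma ext_char {X : Type v} {Y : Type w} {T : Type} [AddCommGroup X] [AddCommGroup Y]
    [AddCommGroup T] [DivisibleBy T ℤ] (f : X →+ Y) (χ : X →+ T) (h : ∀ x, f x = 0 → χ x = 0) :
    ∃ lam : Y →+ T, ∀ x, lam (f x) = χ x := by
  obtain ⟨lam, hl⟩ := (Module.Baer.of_divisible T).extension_property_addMonoidHom
    (QuotientAddGroup.kerLift f) (QuotientAddGroup.kerLift_injective f)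
    (QuotientAddGroup.lift f.ker χ h)
  exact ⟨lam, fun x => DFunLike.congr_fun hl (QuotientAddGroup.mk x)⟩

lemma exists_char {G : Type v} [AddCommGroup G] (H : AddSubgroup G) (m : G) (hm : m ∉ H) :
    ∃ (T : Type) (_ : AddCommGroup T) (_ : DivisibleBy T ℤ) (χ : G →+ T), (∀ x ∈ H, χ x = 0) ∧
      χ m ≠ 0 ∧ ∀ s : T, s ≠ 0 → ∃ k : ℤ, k • s = χ m := by
  obtain ⟨c, hc⟩ := CharacterModule.exists_character_apply_ne_zero_of_ne_zero
    (a := (QuotientAddGroup.mk m : G ⧸ H)) (by rwa [Ne, QuotientAddGroup.eq_zero_iff])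
  let c' : (G ⧸ H) →+ AddCircle (1 : ℚ) := c
  set t : AddCircle (1 : ℚ) := c (QuotientAddGroup.mk m) with ht
  obtain ⟨K, -, hK⟩ := zorn_le_nonempty₀ {K : AddSubgroup (AddCircle (1 : ℚ)) | t ∉ K}
    (fun c hc hch y hy => ⟨sSup c, fun h => by
      obtain ⟨z, hz, h⟩ := (AddSubgroup.mem_sSup_of_directedOn ⟨y, hy⟩ hch.directedOn).1 h
      exact hc hz h, fun z hz => le_sSup hz⟩) ⊥ (by simpa using hc)
  refine ⟨AddCircle (1 : ℚ) ⧸ K, inferInstance,
    Function.Surjective.divisibleBy _ QuotientAddGroup.mk_surjective (fun _ _ => rfl),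
    (QuotientAddGroup.mk' K).comp (c'.comp (QuotientAddGroup.mk' H)), fun x hx => ?_, ?_, ?_⟩
  · have : (QuotientAddGroup.mk' H) x = 0 := (QuotientAddGroup.eq_zero_iff x).2 hx
    rw [AddMonoidHom.comp_apply, AddMonoidHom.comp_apply, this, map_zero, map_zero]
  · exact fun h => hK.1 ((QuotientAddGroup.eq_zero_iff t).1 h)
  · intro s hs
    obtain ⟨s, rfl⟩ := QuotientAddGroup.mk_surjective s
    have hsK : s ∉ K := fun h => hs ((QuotientAddGroup.eq_zero_iff s).2 h)
    have : t ∈ K ⊔ AddSubgroup.zmultiples s := by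
      by_contra hc
      exact hsK (hK.2 hc le_sup_left (AddSubgroup.mem_sup_right (AddSubgroup.mem_zmultiples s)))
    obtain ⟨a, ha, _, ⟨k, rfl⟩, e⟩ := AddSubgroup.mem_sup.1 this
    refine ⟨k, ?_⟩
    change _ = (QuotientAddGroup.mk t : AddCircle (1 : ℚ) ⧸ K)
    rw [← e, QuotientAddGroup.mk_add, (QuotientAddGroup.eq_zero_iff a).2 ha, zero_add]
    rfl

variable {R : Type u} [Ring R] {n : ℕ}
variable (T : Type) [AddCommGroup T] (M : Type u) [AddCommGroup M] [Module R M]

/-- the double dual -/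
def DD : Type u := (M →+ T) →+ T

instance : AddCommGroup (DD T M) := inferInstanceAs (AddCommGroup ((M →+ T) →+ T))
instance : FunLike (DD T M) (M →+ T) T := inferInstanceAs (FunLike ((M →+ T) →+ T) _ _)
instance : AddMonoidHomClass (DD T M) (M →+ T) T :=
  inferInstanceAs (AddMonoidHomClass ((M →+ T) →+ T) _ _)

variable {T M}

/-- right action on characters -/
def pre (r : R) : (M →+ T) →+ (M →+ T) where
  toFun χ := χ.comp (DistribSMul.toAddMonoidHom M r)
  map_zero' := rfl
  map_add' _ _ := rfl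

@[simp] lemma pre_apply (r : R) (χ : M →+ T) (x : M) : pre r χ x = χ (r • x) := rfl

@[simp] lemma DD.add_apply (a b : DD T M) (χ : M →+ T) : (a + b) χ = a χ + b χ := rfl
@[simp] lemma DD.zero_apply (χ : M →+ T) : (0 : DD T M) χ = 0 := rfl
@[simp] lemma DD.zsmul_apply (k : ℤ) (a : DD T M) (χ : M →+ T) : (k • a) χ = k • a χ := rfl
@[ext] lemma DD.ext {a b : DD T M} (h : ∀ χ, a χ = b χ) : a = b := DFunLike.ext _ _ h

lemma DD.sum_apply {κ : Type v} (s : Finset κ) (a : κ → DD T M) (χ : M →+ T) :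
    (∑ i ∈ s, a i) χ = ∑ i ∈ s, a i χ := AddMonoidHom.finsetSum_apply a s χ

instance : Module R (DD T M) where
  smul r ξ := AddMonoidHom.comp ξ (pre r)
  one_smul ξ := DD.ext fun χ => congrArg ξ (by ext; simp)
  mul_smul r s ξ := DD.ext fun χ => congrArg ξ (by ext; simp [mul_smul])
  smul_zero r := rfl
  smul_add r a b := rfl
  add_smul r s ξ := DD.ext fun χ => by
    change ξ (pre (r + s) χ) = ξ (pre r χ) + ξ (pre s χ)
    rw [← map_add]; congr 1; ext; simp [add_smul]
  zero_smul ξ := DD.ext fun χ => by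
    change ξ (pre (0 : R) χ) = 0
    rw [← map_zero ξ]; congr 1; ext; simp

@[simp] lemma DD.smul_apply (r : R) (ξ : DD T M) (χ : M →+ T) : (r • ξ) χ = ξ (pre r χ) := rfl

variable (R T M) in
/-- evaluation -/
def ev : M →ₗ[R] DD T M where
  toFun x := (AddMonoidHom.eval x : (M →+ T) →+ T)
  map_add' x y := DD.ext fun χ => map_add χ x y
  map_smul' _ _ := rfl

@[simp] lemma ev_apply (x : M) (χ : M →+ T) : ev R T M x χ = χ x := rfl

lemma pi_char {k : ℕ} {N : Type u} [AddCommGroup N] (lam : (Fin k → N) →+ T) (z : Fin k → N) :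
    lam z = ∑ l, lam (Pi.single l (z l)) := by
  rw [← map_sum, Finset.univ_sum_single]

lemma lin_expand {g : ℕ} {N : Type u} [AddCommGroup N] [Module R N] (Y : (Fin g → R) →ₗ[R] N)
    (w : Fin g → R) : Y w = ∑ v, w v • Y (Pi.single v 1) := by
  conv_lhs => rw [pi_eq_sum_univ' w]
  simp [map_sum]

variable [DivisibleBy T ℤ]

lemma sat_dd (φ : PP R n) (ξ : Fin n → DD T M) :
    φ.Sat ξ ↔ ∀ χ : Fin n → M →+ T, (∀ x : Fin n → M, φ.Sat x → ∑ i, χ i (x i) = 0) →
      ∑ i, ξ i (χ i) = 0 := by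
  constructor
  · rintro ⟨L, h1, h2⟩ χ hχ
    let β : ((Fin φ.g → R) →ₗ[R] M) →+ (Fin φ.m → M) :=
      { toFun := fun Y l => Y (φ.rel l), map_zero' := rfl, map_add' := fun _ _ => rfl }
    let θ : ((Fin φ.g → R) →ₗ[R] M) →+ T :=
      { toFun := fun Y => ∑ i, χ i (Y (φ.c i)), map_zero' := by simp,
        map_add' := fun _ _ => by simp [Finset.sum_add_distrib] }
    obtain ⟨lam, hl⟩ := ext_char β θ fun Y hY => hχ _ ⟨Y, fun _ => rfl, fun l => congrFun hY l⟩
    let μ : Fin φ.m → M →+ T := fun l => lam.comp (AddMonoidHom.single (fun _ => M) l)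
    have key : ∀ v, ∑ i, pre (φ.c i v) (χ i) = ∑ l, pre (φ.rel l v) (μ l) := by
      intro v
      ext x
      have := hl (LinearMap.toSpanSingleton R M x ∘ₗ LinearMap.proj v)
      rw [pi_char] at this
      simpa [β, θ, μ] using this.symm
    obtain ⟨η, hη⟩ : ∃ η : Fin φ.g → DD T M, ∀ v, η v = L (Pi.single v 1) := ⟨_, fun _ => rfl⟩
    have e : ∀ (w : Fin φ.g → R) (α : M →+ T), L w α = ∑ v, η v (pre (w v) α) := by
      intro w α
      rw [lin_expand L w, DD.sum_apply]
      simp only [hη]; rfl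
    calc ∑ i, ξ i (χ i) = ∑ i, ∑ v, η v (pre (φ.c i v) (χ i)) := by
          simp only [← h1, e]
      _ = ∑ v, η v (∑ l, pre (φ.rel l v) (μ l)) := by
          rw [Finset.sum_comm]; simp only [← key, map_sum]
      _ = ∑ l, L (φ.rel l) (μ l) := by
          simp only [map_sum, e]; rw [Finset.sum_comm]
      _ = 0 := by simp [h2]
  · intro h
    let f : ((Fin n → M →+ T) × (Fin φ.m → M →+ T)) →+ (Fin φ.g → M →+ T) :=
      { toFun := fun p v => ∑ i, pre (φ.c i v) (p.1 i) + ∑ l, pre (φ.rel l v) (p.2 l)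
        map_zero' := by ext; simp
        map_add' := fun _ _ => by ext; simp [Finset.sum_add_distrib]; abel }
    let θ : ((Fin n → M →+ T) × (Fin φ.m → M →+ T)) →+ T :=
      { toFun := fun p => ∑ i, ξ i (p.1 i), map_zero' := by simp,
        map_add' := fun _ _ => by simp [Finset.sum_add_distrib] }
    obtain ⟨eta, he⟩ := ext_char f θ fun p hp => h p.1 (by
      rintro x ⟨Y, h1, h2⟩
      obtain ⟨y, hy⟩ : ∃ y : Fin φ.g → M, ∀ v, y v = Y (Pi.single v 1) := ⟨_, fun _ => rfl⟩
      have e1 : ∑ v, f p v (y v) = 0 := by simp [hp]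
      have e2 : ∀ (w : Fin φ.g → R) (α : M →+ T), α (Y w) = ∑ v, α (w v • y v) := by
        intro w α
        rw [lin_expand Y w, map_sum]
        simp only [hy]
      have e3 : ∑ v, f p v (y v) =
          ∑ i, p.1 i (Y (φ.c i)) + ∑ l, p.2 l (Y (φ.rel l)) := by
        simp only [e2, f, AddMonoidHom.coe_mk, ZeroHom.coe_mk, AddMonoidHom.add_apply,
          AddMonoidHom.finsetSum_apply, pre_apply, Finset.sum_add_distrib]
        rw [Finset.sum_comm, Finset.sum_comm (f := fun v l => p.2 l (φ.rel l v • _))]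
      rw [e3] at e1
      simpa [h1, h2] using e1)
    let η : Fin φ.g → DD T M := fun v => eta.comp (AddMonoidHom.single (fun _ => M →+ T) v)
    have e : ∀ (w : Fin φ.g → R) (α : M →+ T),
        Fintype.linearCombination R η w α = eta fun v => pre (w v) α := by
      intro w α
      rw [Fintype.linearCombination_apply, DD.sum_apply, pi_char eta]; rfl
    refine ⟨Fintype.linearCombination R η, fun i => DD.ext fun α => ?_,
      fun l => DD.ext fun α => ?_⟩
    · have := he (Pi.single i α, 0)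
      rw [e]
      convert this using 2
      · funext v
        simp [f, Pi.single_apply, apply_ite]
      · simp [θ, Pi.single_apply, apply_ite]
    · have := he (0, Pi.single l α)
      rw [e]
      convert this using 2
      · funext v
        simp [f, Pi.single_apply, apply_ite]
      · simp [θ]

lemma cl_dd {π : Pair R} (h : π.Cl M) : π.Cl (DD T M) := fun _ hξ =>
  (sat_dd _ _).2 fun χ hχ => (sat_dd _ _).1 hξ χ fun x hx => hχ x (h x hx)

lemma acc (B : Type u) [AddCommGroup B] [Module R B] {J : Type v} (z : J → B) (e : J → DD T M)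
    (w : Fin n → B) (χ : Fin n → M →+ T) (t : T)
    (h : ∀ s : Finset J, ∃ g : B →ₗ[R] DD T M, (∀ j ∈ s, g (z j) = e j) ∧ ∑ i, g (w i) (χ i) = t) :
    ∃ g : B →ₗ[R] DD T M, (∀ j, g (z j) = e j) ∧ ∑ i, g (w i) (χ i) = t := by
  classical
  let ε : (M →+ T) → B → (B →ₗ[R] DD T M) → T := fun α b g => g b α
  let c : Option (J × (M →+ T)) → (B →ₗ[R] DD T M) → T := fun o =>
    o.elim (∑ i, ε (χ i) (w i)) fun p => ε p.2 (z p.1)
  let d : Option (J × (M →+ T)) → T := fun o => o.elim t fun p => e p.1 p.2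
  obtain ⟨lam, hl⟩ := ext_char (Finsupp.linearCombination ℤ c).toAddMonoidHom
    (Finsupp.linearCombination ℤ d).toAddMonoidHom (fun k hk => by
      obtain ⟨g, h1, h2⟩ := h ((Finset.eraseNone k.support).image Prod.fst)
      have := congrFun hk g
      simp only [LinearMap.toAddMonoidHom_coe, Finsupp.linearCombination_apply, Finsupp.sum,
        Finset.sum_apply, Pi.smul_apply, Pi.zero_apply] at this ⊢
      rw [← this]
      refine Finset.sum_congr rfl fun o ho => ?_
      congr 1
      rcases o with _ | ⟨j, α⟩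
      · simp [c, d, ε, h2]
      · have := h1 j (Finset.mem_image.2 ⟨(j, α), Finset.mem_eraseNone.2 ho, rfl⟩)
        simp [c, d, ε, this])
  have hl' : ∀ o, lam (c o) = d o := fun o => by simpa using hl (Finsupp.single o 1)
  let g : B →ₗ[R] DD T M :=
    { toFun := fun b => (
        { toFun := fun α => lam (ε α b)
          map_zero' := by rw [← map_zero lam]; congr 1; funext g; simp [ε]
          map_add' := fun α β => by rw [← map_add lam]; congr 1; funext g; simp [ε] } :
          (M →+ T) →+ T)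
      map_add' := fun a b => DD.ext fun α => by
        change lam (ε α (a + b)) = lam (ε α a) + lam (ε α b)
        rw [← map_add lam]; congr 1; funext g; simp [ε]
      map_smul' := fun r a => DD.ext fun α => by
        change lam (ε α (r • a)) = lam (ε (pre r α) a)
        congr 1; funext g; simp [ε] }
  refine ⟨g, fun j => DD.ext fun α => hl' (some (j, α)), ?_⟩
  have := hl' none
  simp only [c, d, Option.elim, map_sum] at this
  exact this

end Pool.Agent.H.MP_95e4ab_al
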