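import Pool.Agent.H.MP_95e4ab_al.B

set_option autoImplicit false

namespace Pool.Agent.H.MP_95e4ab_al

universe u v w

variable {R : Type u} [Ring R] {n : ℕ}

section zorn

variable {T : Type} [AddCommGroup T] [DivisibleBy T ℤ] {M : Type u} [AddCommGroup M] [Module R M]
  {B : Type u} [AddCommGroup B] [Module R B]

/-- the order used in the Zorn arguments -/
def LeH (W : Set (B × DD T M)) (y y' : B →ₗ[R] DD T M) : Prop :=
  (∃ d : DD T M →ₗ[R] DD T M, d ∘ₗ y = y') ∧ ∀ p ∈ W, y p.1 = p.2 → y' p.1 = p.2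

omit [DivisibleBy T ℤ] in
lemma LeH.trans {W : Set (B × DD T M)} {a b c : B →ₗ[R] DD T M} (h : LeH W a b) (h' : LeH W b c) :
    LeH W a c := by
  obtain ⟨⟨d, rfl⟩, h1⟩ := h
  obtain ⟨⟨d', rfl⟩, h2⟩ := h'
  exact ⟨⟨d' ∘ₗ d, rfl⟩, fun p hp e => h2 p hp (h1 p hp e)⟩

omit [DivisibleBy T ℤ] in
lemma LeH.refl (W : Set (B × DD T M)) (a : B →ₗ[R] DD T M) : LeH W a a :=
  ⟨⟨LinearMap.id, rfl⟩, fun _ _ e => e⟩

lemma chain_ub (W : Set (B × DD T M)) (w : Fin n → B) (χ : Fin n → M →+ T) (t : T)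
    {I : Type u} [Nonempty I] (y : I → B →ₗ[R] DD T M)
    (hdir : Directed (LeH W) y) (hs : ∀ i, ∑ j, y i (w j) (χ j) = t) :
    ∃ g : B →ₗ[R] DD T M, (∀ i, LeH W (y i) g) ∧ ∑ j, g (w j) (χ j) = t := by
  classical
  let J := (I × B) ⊕ {q : I × (B × DD T M) // q.2 ∈ W ∧ y q.1 q.2.1 = q.2.2}
  let z : J → B × (I →₀ DD T M) :=
    Sum.elim (fun p => (p.2, - Finsupp.single p.1 (y p.1 p.2))) fun q => (q.1.2.1, 0)
  let e : J → DD T M := Sum.elim (fun _ => 0) fun q => q.1.2.2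
  let idx : J → I := Sum.elim (fun p => p.1) fun q => q.1.1
  have : IsTrans (B →ₗ[R] DD T M) (LeH W) := ⟨fun _ _ _ => LeH.trans⟩
  obtain ⟨G, h1, h2⟩ := acc (R := R) (B × (I →₀ DD T M)) z e (fun j => (w j, 0)) χ t (fun s => by
    obtain ⟨k, hk⟩ := hdir.finset_le (s.image idx)
    have : ∀ i, ∃ d : DD T M →ₗ[R] DD T M, LeH W (y i) (y k) → d ∘ₗ y i = y k := by
      intro i
      by_cases hi : LeH W (y i) (y k)
      · obtain ⟨d, hd⟩ := hi.1
        exact ⟨d, fun _ => hd⟩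
      · exact ⟨0, fun h => absurd h hi⟩
    choose d hd using this
    refine ⟨(y k).coprod (Finsupp.lsum ℕ d), fun j hj => ?_, by simpa using hs k⟩
    have hj' := hk _ (Finset.mem_image_of_mem idx hj)
    rcases j with p | q
    · have := LinearMap.congr_fun (hd _ hj') p.2
      simp only [idx, Sum.elim_inl, LinearMap.comp_apply] at this
      simp only [z, e, Sum.elim_inl, LinearMap.coprod_apply, map_neg, Finsupp.lsum_single, this,
        add_neg_cancel]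
    · have := hj'.2 _ q.2.1 q.2.2
      simpa [z, e] using this)
  refine ⟨G ∘ₗ LinearMap.inl R _ _, fun i => ⟨⟨G ∘ₗ LinearMap.inr R _ _ ∘ₗ Finsupp.lsingle i,
    LinearMap.ext fun b => ?_⟩, fun p hp hy => h1 (Sum.inr ⟨(i, p), hp, hy⟩)⟩, h2⟩
  have := h1 (Sum.inl (i, b))
  simp only [z, e, Sum.elim_inl] at this
  simp only [LinearMap.comp_apply, LinearMap.inr_apply, LinearMap.inl_apply, Finsupp.lsingle_apply]
  rw [eq_comm, ← sub_eq_zero, ← map_sub, ← this]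
  simp

lemma zg (W0 W : Set (B × DD T M)) (w : Fin n → B) (χ : Fin n → M →+ T) (t : T)
    (y0 : B →ₗ[R] DD T M) (h0 : ∀ p ∈ W0, y0 p.1 = p.2) (hs : ∑ j, y0 (w j) (χ j) = t) :
    ∃ y : B →ₗ[R] DD T M, (∃ d : DD T M →ₗ[R] DD T M, d ∘ₗ y0 = y) ∧ (∀ p ∈ W0, y p.1 = p.2) ∧
      ∑ j, y (w j) (χ j) = t ∧ ∀ y' : B →ₗ[R] DD T M, (∀ p ∈ W0, y' p.1 = p.2) →
        ∑ j, y' (w j) (χ j) = t → LeH W y y' → LeH W y' y := by
  let X := {y : B →ₗ[R] DD T M // LeH W0 y0 y ∧ ∑ j, y (w j) (χ j) = t}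
  have : Nonempty X := ⟨⟨y0, LeH.refl _ _, hs⟩⟩
  obtain ⟨m, hm⟩ := exists_maximal_of_nonempty_chains_bounded
    (r := fun a b : X => LeH (W ∪ W0) a.1 b.1) (fun c hc hne => by
      have : Nonempty c := hne.to_subtype
      obtain ⟨g, h1, h2⟩ := chain_ub (W ∪ W0) w χ t (fun i : c => i.1.1) (fun a b => by
        by_cases e : a.1 = b.1
        · exact ⟨b, by simp only [e]; exact LeH.refl _ _, LeH.refl _ _⟩
        · rcases hc a.2 b.2 e with h | h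
          · exact ⟨b, h, LeH.refl _ _⟩
          · exact ⟨a, LeH.refl _ _, h⟩) (fun i => i.1.2.2)
      obtain ⟨a, ha⟩ := hne
      have h3 := h1 ⟨a, ha⟩
      exact ⟨⟨g, a.2.1.trans ⟨h3.1, fun p hp => h3.2 p (Or.inr hp)⟩, h2⟩,
        fun b hb => h1 ⟨b, hb⟩⟩) LeH.trans
  refine ⟨m.1, m.2.1.1, fun p hp => m.2.1.2 p hp (h0 p hp), m.2.2, fun y' h1 h2 h3 => ?_⟩
  have := hm ⟨y', m.2.1.trans ⟨h3.1, fun p hp _ => h1 p hp⟩, h2⟩
    ⟨h3.1, fun p hp e => hp.elim (fun hp => h3.2 p hp e) (h1 p)⟩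
  exact ⟨this.1, fun p hp => this.2 p (Or.inl hp)⟩

lemma min_idem (b : Fin n → DD T M) : ∃ y : DD T M →ₗ[R] DD T M, (∀ x, y (y x) = y x) ∧
    (∀ i, y (b i) = b i) ∧ ∀ s : DD T M →ₗ[R] DD T M, (∀ i, s (b i) = b i) →
      ∃ d : DD T M →ₗ[R] DD T M, d ∘ₗ s ∘ₗ y = y := by
  let W0 : Set (DD T M × DD T M) := Set.range fun i => (b i, b i)
  have hW : ∀ y : DD T M →ₗ[R] DD T M, (∀ p ∈ W0, y p.1 = p.2) ↔ ∀ i, y (b i) = b i :=
    fun y => by simp [W0]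
  obtain ⟨g, -, hg, -, hm⟩ := zg (R := R) (n := 0) W0 ∅ Fin.elim0 Fin.elim0 0 LinearMap.id
    (by simp [W0]) (by simp)
  rw [hW] at hg
  have hm' : ∀ s : DD T M →ₗ[R] DD T M, (∀ i, s (b i) = b i) →
      ∃ d : DD T M →ₗ[R] DD T M, d ∘ₗ s ∘ₗ g = g := fun s hs =>
    (hm (s ∘ₗ g) ((hW _).2 fun i => by simp [hg, hs]) (by simp) ⟨⟨s, rfl⟩, by simp⟩).1
  obtain ⟨y, ⟨d1, hd1⟩, hy, -, hmax⟩ := zg (R := R) (n := 0) W0 {p | p.1 = p.2} Fin.elim0
    Fin.elim0 0 g ((hW _).2 hg) (by simp)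
  rw [hW] at hy
  have hmin : ∀ s : DD T M →ₗ[R] DD T M, (∀ i, s (b i) = b i) →
      ∃ d : DD T M →ₗ[R] DD T M, d ∘ₗ s ∘ₗ y = y := by
    intro s hs
    obtain ⟨d, hd⟩ := hm' (s ∘ₗ d1) fun i => by
      have := hy i
      rw [← hd1, LinearMap.comp_apply, hg] at this
      rw [LinearMap.comp_apply, this, hs]
    refine ⟨d1 ∘ₗ d, ?_⟩
    conv_rhs => rw [← hd1, ← hd]
    rw [← hd1]; rfl
  refine ⟨y, fun x => ?_, hy, hmin⟩
  obtain ⟨d, hd⟩ := hmin y hy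
  have hd' : ∀ x, d (y (y x)) = y x := fun x => LinearMap.congr_fun hd x
  have key : ∀ x, y x = x → d (y x) = x := fun x hx => by
    have := hd' x
    rw [hx, hx] at this
    rw [hx, this]
  exact (hmax (d ∘ₗ y) ((hW _).2 fun i => key _ (hy i)) (by simp)
    ⟨⟨d, rfl⟩, fun p hp e => by
      have hp' : p.1 = p.2 := hp
      rw [← hp'] at e ⊢
      exact key _ e⟩).2 (y x, y x) rfl (hd' x)

end zorn

variable (R) in
/-- algebraic compactness -/
def AC (N : Type u) [AddCommGroup N] [Module R N] : Prop :=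
  ∀ (B : Type u) [AddCommGroup B] [Module R B] (J : Type u) (z : J → B) (e : J → N),
    (∀ s : Finset J, ∃ g : B →ₗ[R] N, ∀ j ∈ s, g (z j) = e j) →
      ∃ g : B →ₗ[R] N, ∀ j, g (z j) = e j

variable (R) in
/-- locality of the endomorphism ring -/
def LOC (N : Type u) [AddCommGroup N] [Module R N] : Prop :=
  ∀ g : N →ₗ[R] N, (∃ d : N →ₗ[R] N, ∀ x, d (g x) = x) ∨ ∃ d : N →ₗ[R] N, ∀ x, d (x - g x) = x

lemma zl (M : Type u) [AddCommGroup M] [Module R M] (Ψ : AddSubgroup (Fin n → M)) (m : Fin n → M)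
    (hm : m ∉ Ψ) : ∃ (N : ModuleCat.{u} R) (b : Fin n → N), AC R N ∧ LOC R N ∧
      (∀ π : Pair R, π.Cl M → π.Cl N) ∧ (∀ φ : PP R n, φ.Sat m → φ.Sat b) ∧
      ∀ ψ : PP R n, (∀ x : Fin n → M, ψ.Sat x → x ∈ Ψ) → ¬ ψ.Sat b := by
  obtain ⟨T, _, _, χ0, h1, h2, h3⟩ := exists_char Ψ m hm
  let χ : Fin n → M →+ T := fun i => χ0.comp (AddMonoidHom.single (fun _ => M) i)
  have hχ : ∀ x : Fin n → M, ∑ i, χ i (x i) = χ0 x := fun x => (pi_char χ0 x).symm
  let y0 : (Fin n → R) →ₗ[R] DD T M := Fintype.linearCombination R fun i => ev R T M (m i)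
  obtain ⟨y1, ⟨d0, hd0⟩, -, hs, hmax⟩ := zg (R := R) ∅ ∅ (fun i => Pi.single i 1) χ (χ0 m) y0
    (by simp) (by simp [y0, hχ])
  obtain ⟨b, hb⟩ : ∃ b : Fin n → DD T M, ∀ i, b i = y1 (Pi.single i 1) := ⟨_, fun _ => rfl⟩
  simp only [← hb] at hs
  have hb0 : ∀ i, d0 (ev R T M (m i)) = b i := fun i => by rw [hb, ← hd0]; simp [y0]
  have hmax' : ∀ s : DD T M →ₗ[R] DD T M, ∑ i, s (b i) (χ i) ≠ 0 →
      ∃ d : DD T M →ₗ[R] DD T M, ∀ i, d (s (b i)) = b i := by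
    intro s hs0
    obtain ⟨k, hk⟩ := h3 _ hs0
    obtain ⟨d, hd⟩ := (hmax ((k • s) ∘ₗ y1) (by simp) (by
      rw [← hk, Finset.smul_sum]; simp [hb]) ⟨⟨_, rfl⟩, by simp⟩).1
    refine ⟨k • d, fun i => ?_⟩
    have := LinearMap.congr_fun hd (Pi.single i 1)
    simpa [hb] using this
  obtain ⟨y, hyy, hyb, hmin⟩ := min_idem (R := R) b
  have hfix : ∀ z : LinearMap.range y, y z = z := by
    rintro ⟨_, z, rfl⟩
    exact hyy z
  have hfix' : ∀ z : LinearMap.range y, y.rangeRestrict z = z := fun z => Subtype.ext (hfix z)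
  let b' : Fin n → LinearMap.range y := fun i => ⟨b i, b i, hyb i⟩
  have hrb : ∀ i, y.rangeRestrict (b i) = b' i := fun i => Subtype.ext (hyb i)
  have hloc : ∀ g : LinearMap.range y →ₗ[R] LinearMap.range y,
      ∑ i, (g (b' i) : DD T M) (χ i) ≠ 0 →
      ∃ d : LinearMap.range y →ₗ[R] LinearMap.range y, ∀ x, d (g x) = x := by
    intro g hg
    obtain ⟨d, hd⟩ := hmax' ((LinearMap.range y).subtype ∘ₗ g ∘ₗ y.rangeRestrict) (by
      simpa [hrb] using hg)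
    obtain ⟨d', hd'⟩ := hmin (d ∘ₗ (LinearMap.range y).subtype ∘ₗ g ∘ₗ y.rangeRestrict) hd
    refine ⟨y.rangeRestrict ∘ₗ d' ∘ₗ d ∘ₗ (LinearMap.range y).subtype, fun x => ?_⟩
    have := LinearMap.congr_fun hd' x.1
    simp only [LinearMap.comp_apply, hfix, hfix'] at this ⊢
    rw [this, hfix']
  refine ⟨ModuleCat.of R (LinearMap.range y), b', fun B _ _ J z e h => ?_, fun g => ?_,
    fun π hπ => (cl_dd hπ).retract (LinearMap.range y).subtype y.rangeRestrict hfix',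
    fun φ hφ => ?_, fun ψ hψ hsat => h2 ?_⟩
  · obtain ⟨G, hG, -⟩ := acc (R := R) (n := 0) B z (fun j => (e j).1) Fin.elim0 Fin.elim0 (0 : T)
      (fun s => by
        obtain ⟨g, hg⟩ := h s
        exact ⟨(LinearMap.range y).subtype ∘ₗ g, fun j hj => by simp [hg j hj], by simp⟩)
    exact ⟨y.rangeRestrict ∘ₗ G, fun j => by rw [LinearMap.comp_apply, hG, hfix']⟩
  · by_cases hg : ∑ i, (g (b' i) : DD T M) (χ i) = 0
    · right
      refine hloc (LinearMap.id - g) fun h0 => h2 ?_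
      rw [← hs, ← h0, ← sub_zero (∑ i, b i (χ i)), ← hg, ← Finset.sum_sub_distrib]
      rfl
    · exact Or.inl (hloc g hg)
  · have := ((hφ.map (ev R T M)).map d0).map y.rangeRestrict
    simpa only [hb0, hrb] using this
  · rw [← hs]
    exact (sat_dd ψ b).1 (hsat.map (LinearMap.range y).subtype) χ
      fun x hx => by rw [hχ, h1 x (hψ x hx)]

lemma AC.sum {N : Type u} [AddCommGroup N] [Module R N] (h : AC R N) (I : Type u) :
    ∃ g : (I → N) →ₗ[R] N, ∀ x : I →₀ N, g ⇑x = x.sum (fun _ m => m) := by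
  classical
  refine h (I → N) (I →₀ N) (fun x => ⇑x) (fun x => x.sum fun _ m => m) fun s => ?_
  refine ⟨∑ i ∈ s.biUnion Finsupp.support, LinearMap.proj i, fun x hx => ?_⟩
  rw [Finsupp.sum_of_support_subset x (Finset.subset_biUnion_of_mem Finsupp.support hx) _
    (fun _ _ => rfl)]
  simp

lemma LOC.indec {N : Type u} [AddCommGroup N] [Module R N] (h : LOC R N) (A B : Submodule R N)
    (hc : IsCompl A B) : A = ⊥ ∨ B = ⊥ := by
  rcases h (A.subtype ∘ₗ A.projectionOnto B hc) with ⟨d, hd⟩ | ⟨d, hd⟩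
  · right
    rw [eq_bot_iff]
    intro x hx
    have := hd x
    rw [LinearMap.comp_apply, Submodule.projectionOnto_apply_of_mem_right hc hx] at this
    simpa using this.symm
  · left
    rw [eq_bot_iff]
    intro x hx
    have := hd x
    rw [LinearMap.comp_apply, show A.projectionOnto B hc x = ⟨x, hx⟩ from
      Submodule.projectionOnto_apply_left hc ⟨x, hx⟩] at this
    simpa using this.symm

end Pool.Agent.H.MP_95e4ab_al
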