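import Pool.Agent.H.MP_95e4ab_al.C

set_option autoImplicit false

namespace Pool.Agent.H.MP_95e4ab_al

universe u v w

variable {R : Type u} [Ring R] {n : ℕ}

lemma split3 {F A B M : Type u} [AddCommGroup F] [Module R F] [AddCommGroup A] [Module R A]
    [AddCommGroup B] [Module R B] [AddCommGroup M] [Module R M] (L : F × A × B →ₗ[R] M) :
    ∃ (L1 : F →ₗ[R] M) (L2 : A →ₗ[R] M) (L3 : B →ₗ[R] M), L = L1.coprod (L2.coprod L3) :=
  ⟨L ∘ₗ LinearMap.inl R _ _, L ∘ₗ LinearMap.inr R _ _ ∘ₗ LinearMap.inl R _ _,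
    L ∘ₗ LinearMap.inr R _ _ ∘ₗ LinearMap.inr R _ _, by ext <;> simp⟩

lemma gl {N : Type u} [AddCommGroup N] [Module R N] (hA : AC R N) (hL : LOC R N) (φ ψ : PP R n)
    (π : Pair R) (a : Fin n → N) (ha : φ.Sat a) (ha' : ¬ ψ.Sat a) (hπ : ¬ π.Cl N) :
    ∃ φ' ψ' : PP R n,
      (∀ (M : ModuleCat.{u} R) (x : Fin n → M), φ'.Sat x → φ.Sat x) ∧
      (∀ (M : ModuleCat.{u} R) (x : Fin n → M), ψ.Sat x → ψ'.Sat x) ∧
      (∀ M : ModuleCat.{u} R, π.Cl M → Pair.Cl ⟨n, φ', ψ'⟩ M) ∧ φ'.Sat a ∧ ¬ ψ'.Sat a := by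
  classical
  obtain ⟨k, σ, τ⟩ := π
  simp only [Pair.Cl, not_forall] at hπ
  obtain ⟨b, hb, hb'⟩ := hπ
  let p : (N →₀ R) →ₗ[R] N := Finsupp.linearCombination R id
  have hp : Function.Surjective p := fun x => ⟨Finsupp.single x 1, by simp [p]⟩
  let e : N → N →₀ R := fun x => Finsupp.single x 1
  have hpe : ∀ x, p (e x) = x := fun x => by simp [p, e]
  let c : Fin n → ((N →₀ R) × (Fin ψ.g → R) × (Fin τ.g → R)) := fun i => (e (a i), ψ.c i, 0)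
  let zr : Fin ψ.m ⊕ Fin k ⊕ Fin τ.m → ((N →₀ R) × (Fin ψ.g → R) × (Fin τ.g → R)) := Sum.elim (fun l => (0, ψ.rel l, 0))
    (Sum.elim (fun j => (e (b j), 0, - τ.c j)) fun l => (0, 0, τ.rel l))
  have h1 : ∃ s : Finset (LinearMap.ker p), ¬ ∃ L : ((N →₀ R) × (Fin ψ.g → R) × (Fin τ.g → R)) →ₗ[R] N, (∀ i, L (c i) = a i) ∧
      ∀ r : s ⊕ Fin ψ.m ⊕ Fin k ⊕ Fin τ.m,
        L (Sum.elim (fun z : s => ((z.1.1, 0, 0) : ((N →₀ R) × (Fin ψ.g → R) × (Fin τ.g → R)))) zr r) = 0 := by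
    by_contra hc
    push Not at hc
    obtain ⟨L, hL'⟩ := hA ((N →₀ R) × (Fin ψ.g → R) × (Fin τ.g → R)) (LinearMap.ker p ⊕ Fin n ⊕ Fin ψ.m ⊕ Fin k ⊕ Fin τ.m)
      (Sum.elim (fun z => (z.1, 0, 0)) (Sum.elim c zr))
      (Sum.elim (fun _ => 0) (Sum.elim a fun _ => 0)) (fun s => by
        obtain ⟨L, h1, h2⟩ := hc s.toLeft
        refine ⟨L, ?_⟩
        rintro (z | i | r) hj
        · exact h2 (Sum.inl ⟨z, Finset.mem_toLeft.2 hj⟩)
        · exact h1 i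
        · exact h2 (Sum.inr r))
    obtain ⟨L1, L2, L3, rfl⟩ := split3 L
    obtain ⟨g, hg⟩ := factor hp L1 fun z hz => by simpa using hL' (Sum.inl ⟨z, hz⟩)
    have hg' : ∀ x, L1 (e x) = g x := fun x => by rw [← hg, hpe]
    have s1 : ψ.Sat fun i => a i - g (a i) :=
      ⟨L2, fun i => by
        have := hL' (Sum.inr (Sum.inl i))
        simp only [c, Sum.elim_inr, Sum.elim_inl, LinearMap.coprod_apply, hg', map_zero,
          add_zero] at this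
        exact eq_sub_of_add_eq' this,
       fun l => by simpa [zr] using hL' (Sum.inr (Sum.inr (Sum.inl l)))⟩
    have s2 : τ.Sat fun j => g (b j) :=
      ⟨L3, fun j => by
        have := hL' (Sum.inr (Sum.inr (Sum.inr (Sum.inl j))))
        simp only [zr, Sum.elim_inr, Sum.elim_inl, LinearMap.coprod_apply, hg', map_zero,
          zero_add, map_neg] at this
        exact (add_neg_eq_zero.1 this).symm,
       fun l => by simpa [zr] using hL' (Sum.inr (Sum.inr (Sum.inr (Sum.inr l))))⟩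
    rcases hL g with ⟨d, hd⟩ | ⟨d, hd⟩
    · exact hb' (by simpa [hd] using s2.map d)
    · exact ha' (by simpa only [hd] using s1.map d)
  obtain ⟨s, hs⟩ := h1
  obtain ⟨ψ', hψ'⟩ := mkPP (R := R) ((N →₀ R) × (Fin ψ.g → R) × (Fin τ.g → R)) c (Sum.elim (fun z : s => ((z.1.1, 0, 0) : ((N →₀ R) × (Fin ψ.g → R) × (Fin τ.g → R)))) zr)
  let zr' : s ⊕ Fin n ⊕ Fin φ.m ⊕ Fin k ⊕ Fin σ.m → ((N →₀ R) × (Fin φ.g → R) × (Fin σ.g → R)) :=
    Sum.elim (fun z => (z.1.1, 0, 0)) (Sum.elim (fun i => (e (a i), - φ.c i, 0))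
      (Sum.elim (fun l => (0, φ.rel l, 0))
        (Sum.elim (fun j => (e (b j), 0, - σ.c j)) fun l => (0, 0, σ.rel l))))
  obtain ⟨φ', hφ'⟩ := mkPP (R := R) ((N →₀ R) × (Fin φ.g → R) × (Fin σ.g → R)) (fun i => (e (a i), 0, 0)) zr'
  have hφ'' : ∀ (M : Type u) [AddCommGroup M] [Module R M] (x : Fin n → M), φ'.Sat x →
      φ.Sat x ∧ ∃ L1 : (N →₀ R) →ₗ[R] M, (∀ i, L1 (e (a i)) = x i) ∧ (∀ z ∈ s, L1 z.1 = 0) ∧
        σ.Sat fun j => L1 (e (b j)) := by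
    intro M _ _ x hx
    obtain ⟨L, h1, h2⟩ := (hφ' M x).1 hx
    obtain ⟨L1, L2, L3, rfl⟩ := split3 L
    have h1' : ∀ i, L1 (e (a i)) = x i := fun i => by simpa using h1 i
    refine ⟨⟨L2, fun i => ?_, fun l => ?_⟩, L1, h1', fun z hz => ?_, L3, fun j => ?_, fun l => ?_⟩
    · have := h2 (Sum.inr (Sum.inl i))
      simp only [zr', Sum.elim_inr, Sum.elim_inl, LinearMap.coprod_apply, h1', map_zero,
        add_zero, map_neg] at this
      exact (add_neg_eq_zero.1 this).symm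
    · simpa [zr'] using h2 (Sum.inr (Sum.inr (Sum.inl l)))
    · simpa [zr'] using h2 (Sum.inl ⟨z, hz⟩)
    · have := h2 (Sum.inr (Sum.inr (Sum.inr (Sum.inl j))))
      simp only [zr', Sum.elim_inr, Sum.elim_inl, LinearMap.coprod_apply, map_zero,
        zero_add, map_neg] at this
      exact (add_neg_eq_zero.1 this).symm
    · simpa [zr'] using h2 (Sum.inr (Sum.inr (Sum.inr (Sum.inr l))))
  refine ⟨φ', ψ', fun M x hx => (hφ'' M x hx).1, ?_, fun M hM x hx => ?_, ?_,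
    fun h => hs ((hψ' N a).1 h)⟩
  · rintro M x ⟨Y, h1, h2⟩
    refine (hψ' M x).2 ⟨LinearMap.coprod 0 (Y.coprod 0), fun i => by simp [c, h1], ?_⟩
    rintro (z | l | j | l) <;> simp [zr, h2]
  · obtain ⟨-, L1, h1, h2, h3⟩ := hφ'' M x hx
    obtain ⟨Y, h4, h5⟩ := hM _ h3
    refine (hψ' M x).2 ⟨L1.coprod (LinearMap.coprod 0 Y), fun i => by simp [c, h1], ?_⟩
    rintro (z | l | j | l)
    · simpa using h2 z.1 z.2
    · simp [zr]
    · simp [zr, h4 j]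
    · simpa [zr] using h5 l
  · obtain ⟨Y, h1, h2⟩ := ha
    obtain ⟨Z, h3, h4⟩ := hb
    refine (hφ' N a).2 ⟨p.coprod (Y.coprod Z), fun i => by simp [hpe], ?_⟩
    rintro (z | i | l | j | l)
    · simpa [zr'] using z.1.2
    · simp [zr', hpe, h1]
    · simp [zr', h2]
    · simp [zr', hpe, h3]
    · simp [zr', h4]

lemma zl1 (M : Type u) [AddCommGroup M] [Module R M] (p : Pair R) (hp : ¬ p.Cl M) :
    ∃ N : ModuleCat.{u} R, AC R N ∧ LOC R N ∧ (∀ π : Pair R, π.Cl M → π.Cl N) ∧ ¬ p.Cl N := by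
  simp only [Pair.Cl, not_forall] at hp
  obtain ⟨m, hm, hm'⟩ := hp
  obtain ⟨N, b, h1, h2, h3, h4, h5⟩ := zl (R := R) M
    { carrier := {x | p.2.2.Sat x}, add_mem' := PP.Sat.add, zero_mem' := PP.Sat.zero,
      neg_mem' := PP.Sat.neg } m hm'
  exact ⟨N, h1, h2, h3, fun h => h5 _ (fun _ hx => hx) (h b (h4 _ hm))⟩

theorem main (π : ℕ → Pair R)
    (hmono : ∀ (k : ℕ) (M : ModuleCat.{u} R), (π k).Cl M → (π (k + 1)).Cl M) (S0 : Set (Pair R))
    (h0 : ∀ k, ∃ M : ModuleCat.{u} R, (∀ p ∈ S0, p.Cl M) ∧ ¬ (π k).Cl M) :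
    ∃ N : ModuleCat.{u} R, AC R N ∧ LOC R N ∧ (∀ p ∈ S0, p.Cl N) ∧ ∀ k, ¬ (π k).Cl N := by
  have mono : ∀ (k l : ℕ) (M : ModuleCat.{u} R), k ≤ l → (π k).Cl M → (π l).Cl M := by
    intro k l M h hk
    induction l, h using Nat.le_induction with
    | base => exact hk
    | succ l _ ih => exact hmono l M ih
  obtain ⟨S, hS0, hS⟩ := zorn_subset_nonempty
    {S : Set (Pair R) | ∀ k, ∃ M : ModuleCat.{u} R, (∀ p ∈ S, p.Cl M) ∧ ¬ (π k).Cl M}
    (fun c hc hch hne => by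
      refine ⟨⋃₀ c, fun k => ?_, fun _ => Set.subset_sUnion_of_mem⟩
      have : Nonempty c := hne.to_subtype
      have : IsDirectedOrder c := hch.directedOn.isDirectedOrder
      choose M h1 h2 using fun i : c => hc i.2 k
      simp only [Pair.Cl, not_forall] at h2
      choose x h3 h4 using h2
      obtain ⟨P, mk, hs, h⟩ := redprod c Filter.atTop M
      refine ⟨P, ?_, fun hP => ?_⟩
      · rintro p ⟨i, hi, hp⟩
        exact redprod_cl hs h p ((Filter.eventually_ge_atTop (⟨i, hi⟩ : c)).mono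
          fun j hj => h1 j p (hj hp))
      · obtain ⟨i, hi⟩ := ((h _ _ fun j i => x i j).1
          (hP _ ((h _ _ fun j i => x i j).2 (Filter.Eventually.of_forall h3)))).exists
        exact h4 i hi) S0 h0
  have hb : ∀ p : Pair R, (∃ M : ModuleCat.{u} R, (∀ q ∈ S, q.Cl M) ∧ ¬ p.Cl M) →
      ∃ k, ∀ M : ModuleCat.{u} R, (∀ q ∈ S, q.Cl M) → p.Cl M → (π k).Cl M := by
    rintro p ⟨M, h1, h2⟩
    by_contra hc
    push Not at hc
    refine h2 (h1 p (hS.2 (y := insert p S) (fun k => ?_) (Set.subset_insert _ _)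
      (Set.mem_insert _ _)))
    obtain ⟨M', e1, e2, e3⟩ := hc k
    exact ⟨M', by rintro q (rfl | hq); exacts [e2, e1 q hq], e3⟩
  let X := {q : PP R (π 0).1 × PP R (π 0).1 //
    ∃ M : ModuleCat.{u} R, (∀ p ∈ S, p.Cl M) ∧ ¬ Pair.Cl ⟨_, q⟩ M}
  have step : ∀ (k : ℕ) (q : X), ∃ q' : X,
      (∀ (M : ModuleCat.{u} R) (x : Fin _ → M), q'.1.1.Sat x → q.1.1.Sat x) ∧
      (∀ (M : ModuleCat.{u} R) (x : Fin _ → M), q.1.2.Sat x → q'.1.2.Sat x) ∧
      ∀ M : ModuleCat.{u} R, (π k).Cl M → Pair.Cl ⟨_, q'.1⟩ M := by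
    intro k q
    obtain ⟨j, hj⟩ := hb _ q.2
    obtain ⟨M, h1, h2⟩ := hS.1 (max j k)
    obtain ⟨N, e1, e2, e3, e4⟩ := zl1 M _ h2
    have hN : ∀ p ∈ S, p.Cl N := fun p hp => e3 p (h1 p hp)
    have e5 : ¬ Pair.Cl ⟨_, q.1⟩ N := fun h => e4 (mono _ _ N (le_max_left _ _) (hj N hN h))
    simp only [Pair.Cl, not_forall] at e5
    obtain ⟨a, ha, ha'⟩ := e5
    obtain ⟨φ', ψ', g1, g2, g3, g4, g5⟩ := gl e1 e2 q.1.1 q.1.2 (π k) a ha ha'
      fun h => e4 (mono _ _ N (le_max_right _ _) h)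
    exact ⟨⟨(φ', ψ'), N, hN, fun h => g5 (h a g4)⟩, g1, g2, g3⟩
  choose F hF1 hF2 hF3 using step
  let s : ℕ → X := fun k => Nat.rec ⟨(π 0).2, hS.1 0⟩ F k
  have m1 : ∀ (M : ModuleCat.{u} R) (x : Fin _ → M) (k l : ℕ), k ≤ l →
      (s l).1.1.Sat x → (s k).1.1.Sat x := by
    intro M x k l h
    induction l, h using Nat.le_induction with
    | base => exact id
    | succ l _ ih => exact fun h => ih (hF1 l (s l) M x h)
  have m2 : ∀ (M : ModuleCat.{u} R) (x : Fin _ → M) (k l : ℕ), k ≤ l →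
      (s k).1.2.Sat x → (s l).1.2.Sat x := by
    intro M x k l h
    induction l, h using Nat.le_induction with
    | base => exact id
    | succ l _ ih => exact fun h => hF2 l (s l) M x (ih h)
  choose M h1 h2 using fun i : ULift.{u} ℕ => (s i.down).2
  simp only [Pair.Cl, not_forall] at h2
  choose x h3 h4 using h2
  obtain ⟨P, mk, hs, h⟩ := redprod (ULift.{u} ℕ) Filter.atTop M
  obtain ⟨N, b, g1, g2, g3, g4, g5⟩ := zl (R := R) P
    { carrier := {z | ∃ k, (s k).1.2.Sat z}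
      add_mem' := fun ⟨k, hk⟩ ⟨l, hl⟩ => ⟨max k l, (m2 P _ _ _ (le_max_left _ _) hk).add
        (m2 P _ _ _ (le_max_right _ _) hl)⟩
      zero_mem' := ⟨0, PP.Sat.zero⟩
      neg_mem' := fun ⟨k, hk⟩ => ⟨k, hk.neg⟩ } (fun j => mk fun i => x i j) (by
    rintro ⟨k, hk⟩
    obtain ⟨i, hi, hi'⟩ := (((h _ _ fun j i => x i j).1 hk).and
      (Filter.eventually_ge_atTop (⟨k⟩ : ULift.{u} ℕ))).exists
    exact h4 i (m2 _ _ _ _ hi' hi))
  refine ⟨N, g1, g2, fun p hp => g3 p (redprod_cl hs h p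
    (Filter.Eventually.of_forall fun i => h1 i p (hS0 hp))), fun k hk => ?_⟩
  refine g5 (s (k + 1)).1.2 (fun z hz => ⟨k + 1, hz⟩) (hF3 k (s k) N hk b (g4 _ ?_))
  exact (h _ _ fun j i => x i j).2 ((Filter.eventually_ge_atTop (⟨k + 1⟩ : ULift.{u} ℕ)).mono
    fun i hi => m1 _ _ _ _ hi (h3 i))

end Pool.Agent.H.MP_95e4ab_al
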