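import Pool.Agent.H.MP_95e4ab_al.D

set_option autoImplicit false

namespace Pool.Agent.H.MP_95e4ab_al

universe u

variable {R : Type u} [Ring R]

/-- a matrix acting on tuples -/
def act {a b : ℕ} (A : Fin a → Fin b → R) {M : Type u} [AddCommGroup M] [Module R M]
    (x : Fin b → M) : Fin a → M := fun i => ∑ j, A i j • x j

section act

variable {a b c : ℕ} (A : Fin a → Fin b → R) {M N : Type u} [AddCommGroup M] [Module R M]
  [AddCommGroup N] [Module R N]

lemma act_map (f : M →ₗ[R] N) (x : Fin b → M) (i : Fin a) :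
    f (act A x i) = act A (fun j => f (x j)) i := by simp [act, map_sum]

lemma act_sub (x y : Fin b → M) : act A (x - y) = act A x - act A y := by
  funext i; simp [act, smul_sub, Finset.sum_sub_distrib]

lemma act_zero : act A (0 : Fin b → M) = 0 := by funext i; simp [act]

/-- exactness of `M^c → M^b → M^a` -/
def Ex (B : Fin b → Fin c → R) (M : Type u) [AddCommGroup M] [Module R M] : Prop :=
  ∀ x : Fin b → M, act A x = 0 → ∃ y, act B y = x

lemma act_act (B : Fin b → Fin c → R) (h : ∀ y : Fin c → R, act A (act B y) = 0)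
    (y : Fin c → M) : act A (act B y) = 0 := by
  funext i
  have : ∀ l, ∑ j, A i j * B j l = 0 := fun l => by
    simpa [act, Pi.single_apply] using congrFun (h (Pi.single l 1)) i
  simp only [act, Finset.smul_sum, smul_smul, Pi.zero_apply]
  rw [Finset.sum_comm]
  simp [← Finset.sum_smul, this]

lemma exPair (B : Fin b → Fin c → R) : ∃ π : Pair R,
    ∀ (M : Type u) [AddCommGroup M] [Module R M], π.Cl M ↔ Ex A B M := by
  refine ⟨⟨b, ⟨b, a, fun i => Pi.single i 1, A⟩, ⟨c, 0, B, Fin.elim0⟩⟩, fun M _ _ =>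
    ⟨fun h x hx => ?_, fun h x hx => ?_⟩⟩
  · obtain ⟨Y, h1, -⟩ := h x ⟨Fintype.linearCombination R x, fun i => by simp,
      fun l => by simpa [Fintype.linearCombination_apply, act] using congrFun hx l⟩
    exact ⟨fun j => Y (Pi.single j 1), funext fun i => by rw [← h1 i, lin_expand Y]; rfl⟩
  · obtain ⟨Y, h1, h2⟩ := hx
    obtain ⟨y, hy⟩ := h x (funext fun l => by
      have := h2 l
      rw [lin_expand Y] at this
      simpa only [act, ← h1, Pi.zero_apply] using this)
    exact ⟨Fintype.linearCombination R y,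
      fun i => by simpa [Fintype.linearCombination_apply, act] using congrFun hy i,
      fun l => l.elim0⟩

lemma ex_proj (B : Fin b → Fin c → R) (h : Ex A B R) (P : Type u) [AddCommGroup P] [Module R P]
    [Module.Projective R P] : Ex A B P := by
  classical
  obtain ⟨π, hπ⟩ := exPair A B
  obtain ⟨s, hs⟩ := Module.projective_def.1 (inferInstance : Module.Projective R P)
  refine (hπ P).1 (((hπ (P →₀ R)).2 fun x hx => ?_).retract s _ hs)
  have : ∀ z : Fin b → R, ∃ y : Fin c → R, (z = 0 → y = 0) ∧ (act A z = 0 → act B y = z) := by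
    intro z
    by_cases hz : z = 0
    · exact ⟨0, fun _ => rfl, fun _ => by rw [act_zero, hz]⟩
    · by_cases hz' : act A z = 0
      · obtain ⟨y, hy⟩ := h z hz'
        exact ⟨y, fun h => absurd h hz, fun _ => hy⟩
      · exact ⟨0, fun _ => rfl, fun h => absurd h hz'⟩
  choose F hF1 hF2 using this
  refine ⟨fun l => Finsupp.onFinset (Finset.univ.biUnion fun j => (x j).support)
    (fun v => F (fun j => x j v) l) fun v hv => ?_, funext fun i => Finsupp.ext fun v => ?_⟩
  · by_contra hc
    apply hv
    rw [hF1 _ (funext fun j => ?_)]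
    · rfl
    · by_contra h0
      exact hc (Finset.mem_biUnion.2 ⟨j, Finset.mem_univ _, Finsupp.mem_support_iff.2 h0⟩)
  · have := hF2 (fun j => x j v) (funext fun l => by
      have := congrArg (fun w : P →₀ R => w v) (congrFun hx l)
      simpa [act, Finsupp.finsetSum_apply] using this)
    simpa [act, Finsupp.finsetSum_apply] using congrFun this i

lemma shift {d : ℕ} (B : Fin b → Fin c → R) (C : Fin c → Fin d → R)
    (hAB : ∀ y : Fin c → R, act A (act B y) = 0) (hBC : ∀ y : Fin d → R, act B (act C y) = 0)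
    {P : Type u} [AddCommGroup P] [Module R P] (h1 : Ex A B P) (h2 : Ex B C P) (ε : P →ₗ[R] M)
    (hε : Function.Surjective ε) : Ex B C M ↔ Ex A B (LinearMap.ker ε) := by
  constructor
  · intro h x hx
    obtain ⟨y, hy⟩ := h1 (fun j => (x j).1) (funext fun i => by
      rw [← show _ = act A (fun j => (x j).1) i from act_map A (LinearMap.ker ε).subtype x i, hx]
      rfl)
    obtain ⟨z, hz⟩ := h (fun j => ε (y j)) (funext fun i => by
      rw [← act_map, hy]; exact (x i).2)
    choose z' hz' using fun l => hε (z l)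
    refine ⟨fun j => ⟨(y - act C z') j, ?_⟩, funext fun i => Subtype.ext ?_⟩
    · rw [LinearMap.mem_ker, Pi.sub_apply, map_sub, act_map]
      simp only [hz', hz, sub_self]
    · rw [show ((act B _ i : LinearMap.ker ε) : P) = _ from act_map B (LinearMap.ker ε).subtype _ i]
      change act B (y - act C z') i = _
      rw [act_sub, act_act B C hBC, hy, sub_zero]
  · intro h x hx
    choose x' hx' using fun l => hε (x l)
    have hw : ∀ i, act B x' i ∈ LinearMap.ker ε := fun i => by
      rw [LinearMap.mem_ker, act_map]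
      simp only [hx', hx, Pi.zero_apply]
    obtain ⟨y, hy⟩ := h (fun i => ⟨_, hw i⟩) (funext fun i => Subtype.ext (by
      rw [show ((act A _ i : LinearMap.ker ε) : P) = _ from act_map A (LinearMap.ker ε).subtype _ i]
      exact congrFun (act_act A B hAB x') i))
    obtain ⟨z, hz⟩ := h2 (x' - fun j => (y j).1) (by
      rw [act_sub, sub_eq_zero]
      funext i
      rw [← show _ = act B (fun j => (y j).1) i from act_map B (LinearMap.ker ε).subtype y i, hy]
      rfl)
    refine ⟨fun l => ε (z l), funext fun i => ?_⟩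
    rw [← act_map, hz, Pi.sub_apply, map_sub, hx', (y i).2, sub_zero]

end act

lemma gens [IsArtinianRing Rᵐᵒᵖ] {a : ℕ} (W : Submodule Rᵐᵒᵖ (Fin a → R)) :
    ∃ (b : ℕ) (B : Fin a → Fin b → R), ∀ x, x ∈ W ↔ ∃ y : Fin b → R, act B y = x := by
  have : IsNoetherian Rᵐᵒᵖ R :=
    isNoetherian_of_linearEquiv (MulOpposite.opLinearEquiv Rᵐᵒᵖ (M := R)).symm
  obtain ⟨b, v, hv⟩ := Submodule.fg_iff_exists_fin_generating_family.1 (IsNoetherian.noetherian W)
  refine ⟨b, fun i j => v j i, fun x => ?_⟩
  rw [← hv, Submodule.mem_span_range_iff_exists_fun]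
  constructor
  · rintro ⟨c, rfl⟩
    exact ⟨fun j => (c j).unop, funext fun i => by simp [act, Finset.sum_apply]⟩
  · rintro ⟨y, rfl⟩
    exact ⟨fun j => MulOpposite.op (y j), funext fun i => by simp [act, Finset.sum_apply]⟩

lemma resol [IsArtinianRing Rᵐᵒᵖ] : ∃ (k : ℕ → ℕ) (A : ∀ i, Fin (k i) → Fin (k (i + 1)) → R)
    (o : Fin (k 0)), (∀ x : Fin (k 0) → R, x o ∈ Ring.jacobson R ↔ ∃ y, act (A 0) y = x) ∧
      (∀ i, i = o) ∧
      ∀ i (x : Fin (k (i + 1)) → R), act (A i) x = 0 ↔ ∃ y, act (A (i + 1)) y = x := by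
  let K : ∀ {a b : ℕ}, (Fin a → Fin b → R) → Submodule Rᵐᵒᵖ (Fin b → R) := fun A =>
    { carrier := {x | act A x = 0}
      add_mem' := fun {x y} hx hy => funext fun i => by
        have h1 := congrFun hx i
        have h2 := congrFun hy i
        simp only [act, smul_eq_mul, Pi.zero_apply] at h1 h2
        simp [act, mul_add, Finset.sum_add_distrib, h1, h2]
      zero_mem' := act_zero A
      smul_mem' := fun r x hx => funext fun i => by
        have h1 := congrFun hx i
        simp only [act, smul_eq_mul, Pi.zero_apply] at h1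
        simp [act, ← mul_assoc, ← Finset.sum_mul, h1] }
  let W0 : Submodule Rᵐᵒᵖ (Fin 1 → R) :=
    { carrier := {x | x 0 ∈ Ring.jacobson R}
      add_mem' := fun {x y} hx hy =>
        ((Ring.jacobson R).add_mem hx hy : x 0 + y 0 ∈ Ring.jacobson R)
      zero_mem' := (Ring.jacobson R).zero_mem
      smul_mem' := fun r x hx =>
        (Ideal.mul_mem_right r.unop (Ring.jacobson R) hx : x 0 * r.unop ∈ Ring.jacobson R) }
  choose nb nB hB using fun (a : ℕ) (W : Submodule Rᵐᵒᵖ (Fin a → R)) => gens W
  let s : ℕ → Σ a : ℕ, Submodule Rᵐᵒᵖ (Fin a → R) := fun i =>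
    Nat.rec ⟨1, W0⟩ (fun _ p => ⟨nb p.1 p.2, K (nB p.1 p.2)⟩) i
  exact ⟨fun i => (s i).1, fun i => nB _ (s i).2, (0 : Fin 1), fun x => hB _ W0 x,
    fun i => Subsingleton.elim (α := Fin 1) _ _, fun i x => hB _ (s (i + 1)).2 x⟩

lemma proj_of [IsArtinianRing R] {F : Type u} [AddCommGroup F] [Module R F] [Module.Projective R F]
    (K : Submodule R F) (hK : ∀ x : K, x.1 ∈ Ring.jacobson R • (⊤ : Submodule R F) →
      x ∈ Ring.jacobson R • (⊤ : Submodule R K)) : ∃ r : F →ₗ[R] K, ∀ x : K, r x = x := by
  set J := Ring.jacobson R with hJ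
  have hT : Module.IsTorsionBySet R (F ⧸ J • (⊤ : Submodule R F)) J := by
    rw [Module.isTorsionBySet_quotient_iff]
    exact fun m i hi => Submodule.smul_mem_smul hi trivial
  have hss : IsSemisimpleModule R (F ⧸ J • (⊤ : Submodule R F)) := by
    let _ := hT.module
    exact (hT.semilinearMap.isSemisimpleModule_iff_of_bijective Function.bijective_id).2
      inferInstance
  let q : K →ₗ[R] F ⧸ J • (⊤ : Submodule R F) := (J • (⊤ : Submodule R F)).mkQ ∘ₗ K.subtype
  obtain ⟨C, hC⟩ := exists_isCompl (LinearMap.range q)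
  obtain ⟨g, hg⟩ := Module.projective_lifting_property q.rangeRestrict
    ((LinearMap.range q).projectionOnto C hC ∘ₗ (J • (⊤ : Submodule R F)).mkQ)
    q.surjective_rangeRestrict
  let h : Module.End R K := 1 - g ∘ₗ K.subtype
  have hh : ∀ x, h x ∈ J • (⊤ : Submodule R K) := fun x => hK _ (by
    have h1 := LinearMap.congr_fun hg x
    have h2 := Submodule.projectionOnto_apply_left hC (q.rangeRestrict x)
    have h3 : q (g x) = q x := congrArg Subtype.val (h1.trans h2)
    rw [← Submodule.Quotient.mk_eq_zero]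
    change q (x - g x) = 0
    rw [map_sub, h3, sub_self])
  have hp : ∀ (i : ℕ) (x : K), (h ^ i) x ∈ J ^ i • (⊤ : Submodule R K) := by
    intro i
    induction i with
    | zero => intro x; rw [J.pow_zero, Ideal.one_eq_top, Submodule.top_smul]; trivial
    | succ i ih =>
      intro x
      rw [pow_succ', Module.End.mul_apply, J.pow_succ, Submodule.mul_smul]
      have := Submodule.mem_map_of_mem (f := h) (ih x)
      rw [Submodule.map_smul''] at this
      exact Submodule.smul_mono le_rfl (by rintro _ ⟨z, -, rfl⟩; exact hh z) this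
  obtain ⟨m, hm⟩ := IsSemiprimaryRing.isNilpotent (R := R)
  have hn : IsNilpotent h := ⟨m, LinearMap.ext fun x => by
    have := hp m x
    rw [hJ, hm] at this
    simpa using this⟩
  obtain ⟨w, hw⟩ := hn.isUnit_one_sub
  refine ⟨(↑w⁻¹ : Module.End R K) ∘ₗ g, fun x => ?_⟩
  have h1 := LinearMap.congr_fun w.inv_mul x
  rw [hw] at h1
  simpa [h] using h1

/-- projective dimension at most `n` -/
def PDim (M : ModuleCat.{u} R) (n : ℕ) : Prop :=
  ∃ (P : ℕ → ModuleCat.{u} R) (d : ∀ i : ℕ, P (i+1) →ₗ[R] P i) (ε : P 0 →ₗ[R] M),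
    (∀ i, Module.Projective R (P i)) ∧ Function.Surjective ε ∧
    LinearMap.ker ε = LinearMap.range (d 0) ∧
    (∀ i, LinearMap.ker (d i) = LinearMap.range (d (i+1))) ∧
    (∀ i, n ≤ i → Subsingleton (P (i+1)))

lemma pdim_iff [IsArtinianRing R] {k : ℕ → ℕ} (A : ∀ i, Fin (k i) → Fin (k (i + 1)) → R)
    (o : Fin (k 0)) (h0 : ∀ x : Fin (k 0) → R, x o ∈ Ring.jacobson R ↔ ∃ y, act (A 0) y = x)
    (ho : ∀ i, i = o)
    (h : ∀ i (x : Fin (k (i + 1)) → R), act (A i) x = 0 ↔ ∃ y, act (A (i + 1)) y = x) (n : ℕ) :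
    ∀ M : ModuleCat.{u} R, PDim M n ↔ Ex (A n) (A (n + 1)) M := by
  have hc : ∀ i (y : Fin (k (i + 2)) → R), act (A i) (act (A (i + 1)) y) = 0 :=
    fun i y => (h i _).2 ⟨y, rfl⟩
  have hP : ∀ i (P : Type u) [AddCommGroup P] [Module R P] [Module.Projective R P],
      Ex (A i) (A (i + 1)) P := fun i P _ _ _ => ex_proj _ _ (fun x hx => (h i x).1 hx) P
  induction n with
  | zero =>
    intro M
    constructor
    · rintro ⟨P, d, ε, h1, h2, h3, -, h5⟩
      have := h5 0 le_rfl
      have := h1 0
      have hinj : Function.Injective ε := by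
        rw [← LinearMap.ker_eq_bot, h3, eq_bot_iff]
        rintro _ ⟨z, rfl⟩
        rw [Subsingleton.elim z 0, map_zero]; trivial
      have : Module.Projective R M := Module.Projective.of_equiv (LinearEquiv.ofBijective ε ⟨hinj, h2⟩)
      exact hP 0 M
    · intro hM
      let p : (M →₀ R) →ₗ[R] M := Finsupp.linearCombination R id
      have hp : Function.Surjective p := fun x => ⟨Finsupp.single x 1, by simp [p]⟩
      have hA : ∀ j, A 0 o j ∈ Ring.jacobson R := fun j => by
        have := (h0 _).2 ⟨Pi.single j 1, rfl⟩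
        simpa [act, Pi.single_apply] using this
      obtain ⟨r, hr⟩ := proj_of (LinearMap.ker p) (fun x hx => by
        have h1 : ∀ z ∈ Ring.jacobson R • (⊤ : Submodule R (M →₀ R)),
            ∃ f : Fin (k 1) → M →₀ R, act (A 0) f o = z := by
          intro z hz
          refine Submodule.smul_induction_on hz (fun j hj f _ => ?_) ?_
          · obtain ⟨y, hy⟩ := (h0 fun _ => j).1 hj
            refine ⟨fun l => y l • f, ?_⟩
            have := congrFun hy o
            simp only [act, smul_eq_mul] at this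
            simp only [act, smul_smul, ← Finset.sum_smul, this]
          · rintro _ _ ⟨f, rfl⟩ ⟨f', rfl⟩
            exact ⟨f + f', by simp [act, Finset.sum_add_distrib]⟩
        obtain ⟨f, hf⟩ := h1 _ hx
        obtain ⟨y, hy⟩ := hM (fun l => p (f l)) (funext fun i => by
          rw [← act_map, ho i, hf]; exact x.2)
        choose y' hy' using fun l => hp (y l)
        have hw : ∀ l, (f - act (A 1) y') l ∈ LinearMap.ker p := fun l => by
          rw [LinearMap.mem_ker, Pi.sub_apply, map_sub, act_map]
          simp only [hy']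
          rw [hy, sub_self]
        have : x = act (A 0) (fun l => (⟨_, hw l⟩ : LinearMap.ker p)) o := Subtype.ext (by
          refine Eq.trans ?_ (act_map (A 0) (LinearMap.ker p).subtype
            (fun l => (⟨_, hw l⟩ : LinearMap.ker p)) o).symm
          change _ = act (A 0) (f - act (A 1) y') o
          rw [act_sub, act_act _ _ (hc 0), sub_zero, hf])
        rw [this]
        exact Submodule.sum_mem _ fun l _ => Submodule.smul_mem_smul (hA l) trivial)
      obtain ⟨s, hs⟩ := factor hp (LinearMap.id - (LinearMap.ker p).subtype ∘ₗ r) fun z hz => by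
        have := congrArg Subtype.val (hr ⟨z, hz⟩)
        simp only [LinearMap.sub_apply, LinearMap.id_apply, LinearMap.comp_apply,
          Submodule.subtype_apply, this, sub_self]
      have hproj : Module.Projective R M := Module.Projective.of_split s p (by
        refine LinearMap.ext fun z => ?_
        obtain ⟨z, rfl⟩ := hp z
        have : p (r z) = 0 := (r z).2
        simp [hs, this])
      refine ⟨fun i => Nat.casesOn i M fun _ => ModuleCat.of R PUnit, fun _ => 0, LinearMap.id,
        ?_, Function.surjective_id, by simp, fun i => ?_, fun i _ => ?_⟩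
      · rintro (_ | i)
        · exact hproj
        · exact inferInstanceAs (Module.Projective R PUnit.{u + 1})
      · have : Subsingleton (Submodule R PUnit.{u + 1}) := inferInstance
        exact this.elim _ _
      · exact inferInstanceAs (Subsingleton PUnit.{u + 1})
  | succ n ih =>
    intro M
    constructor
    · rintro ⟨P, d, ε, h1, h2, h3, h4, h5⟩
      have := h1 0
      rw [shift (A n) _ _ (hc n) (hc (n + 1)) (hP n (P 0)) (hP (n + 1) (P 0)) ε h2]
      refine (ih (ModuleCat.of R (LinearMap.ker ε))).1 ⟨fun i => P (i + 1), fun i => d (i + 1),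
        (d 0).codRestrict _ (fun z => h3 ▸ ⟨z, rfl⟩), fun i => h1 _, ?_, ?_, fun i => h4 _,
        fun i hi => h5 _ (by omega)⟩
      · rintro ⟨z, hz⟩
        rw [h3] at hz
        obtain ⟨w, rfl⟩ := hz
        exact ⟨w, rfl⟩
      · rw [LinearMap.ker_codRestrict]; exact h4 0
    · intro hM
      let p : (M →₀ R) →ₗ[R] M := Finsupp.linearCombination R id
      have hp : Function.Surjective p := fun x => ⟨Finsupp.single x 1, by simp [p]⟩
      rw [shift (A n) _ _ (hc n) (hc (n + 1)) (hP n _) (hP (n + 1) _) p hp] at hM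
      obtain ⟨P, d, ε, h1, h2, h3, h4, h5⟩ := (ih (ModuleCat.of R (LinearMap.ker p))).2 hM
      refine ⟨fun i => Nat.casesOn i (ModuleCat.of R (M →₀ R)) P,
        fun i => Nat.casesOn i ((LinearMap.ker p).subtype ∘ₗ ε) d, p, ?_, hp, ?_, ?_, ?_⟩
      · rintro (_ | i)
        · exact inferInstanceAs (Module.Projective R (M →₀ R))
        · exact h1 i
      · change _ = LinearMap.range ((LinearMap.ker p).subtype ∘ₗ ε)
        rw [LinearMap.range_comp, LinearMap.range_eq_top.2 h2, Submodule.map_top,
          Submodule.range_subtype]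
      · rintro (_ | i)
        · change LinearMap.ker ((LinearMap.ker p).subtype ∘ₗ ε) = LinearMap.range (d 0)
          rw [LinearMap.ker_comp_of_ker_eq_bot _ (Submodule.ker_subtype _), h3]
        · exact h4 i
      · rintro (_ | i) hi
        · omega
        · exact h5 i (by omega)

lemma pdPairs [IsArtinianRing R] [IsArtinianRing Rᵐᵒᵖ] :
    ∃ π : ℕ → Pair R, ∀ (n : ℕ) (M : ModuleCat.{u} R), PDim M n ↔ (π n).Cl M := by
  obtain ⟨k, A, o, h0, ho, h⟩ := resol (R := R)
  choose π hπ using fun n => exPair (A n) (A (n + 1))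
  exact ⟨π, fun n M => (pdim_iff A o h0 ho h n M).trans (hπ n M).symm⟩

end Pool.Agent.H.MP_95e4ab_al
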